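import Mathlib
import Pool.Agent.helper85.PG.Spec2

/-!
# CNT: sums over quotients
-/

set_option autoImplicit false

namespace Pool.Agent.helper85.PG

theorem CNT : CNT_stmt := by
  intro p _ S h0
  have h1 : ∀ ρ : ZMod p, 1 ≤ rr S ρ := by
    intro ρ
    unfold rr
    refine Finset.card_pos.2 ⟨0, Finset.mem_filter.2 ⟨h0, ?_⟩⟩
    rw [mul_zero]
    exact h0
  have hc : ∀ ρ : ZMod p, (((S.erase 0).filter fun y => ρ * y ∈ S).card : ℝ) = (rr S ρ : ℝ) - 1 := by
    intro ρ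
    have h2 : (S.erase 0).filter (fun y => ρ * y ∈ S) = (S.filter fun y => ρ * y ∈ S).erase 0 := by
      ext y
      rw [Finset.mem_filter, Finset.mem_erase, Finset.mem_erase, Finset.mem_filter, and_assoc]
    have h3 : (0 : ZMod p) ∈ S.filter fun y => ρ * y ∈ S := by
      refine Finset.mem_filter.2 ⟨h0, ?_⟩
      rw [mul_zero]
      exact h0
    rw [h2, Finset.card_erase_of_mem h3, Nat.cast_sub (Finset.card_pos.2 ⟨0, h3⟩), Nat.cast_one]
    rfl
  have h2 : ∀ F : ZMod p → ℝ, ∑ x ∈ S.erase 0, ∑ x' ∈ S.erase 0, F (x / x') =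
      ∑ ρ ∈ Finset.univ.erase (0 : ZMod p), ((rr S ρ : ℝ) - 1) * F ρ := by
    intro F
    rw [Finset.sum_comm]
    have h4 : ∀ x' ∈ S.erase 0, ∑ x ∈ S.erase 0, F (x / x') =
        ∑ ρ ∈ Finset.univ.erase (0 : ZMod p), if ρ * x' ∈ S then F ρ else 0 := by
      intro x' hx'
      have hx0 : x' ≠ 0 := (Finset.mem_erase.1 hx').1
      rw [← Finset.sum_filter]
      refine Finset.sum_nbij' (fun x => x / x') (fun ρ => ρ * x') ?_ ?_ ?_ ?_ ?_
      · intro x hx
        obtain ⟨ha, hb⟩ := Finset.mem_erase.1 hx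
        refine Finset.mem_filter.2 ⟨Finset.mem_erase.2 ⟨div_ne_zero ha hx0, Finset.mem_univ _⟩, ?_⟩
        rw [div_mul_cancel₀ _ hx0]
        exact hb
      · intro ρ hρ
        obtain ⟨ha, hb⟩ := Finset.mem_filter.1 hρ
        exact Finset.mem_erase.2 ⟨mul_ne_zero (Finset.mem_erase.1 ha).1 hx0, hb⟩
      · intro x _
        exact div_mul_cancel₀ _ hx0
      · intro ρ _
        exact mul_div_cancel_right₀ _ hx0
      · intro x _
        rfl
    rw [Finset.sum_congr rfl h4, Finset.sum_comm]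
    refine Finset.sum_congr rfl fun ρ _ => ?_
    rw [← Finset.sum_filter, Finset.sum_const, nsmul_eq_mul, hc]
  refine ⟨h1, h2, ?_⟩
  have h5 := h2 fun _ => 1
  have h6 : ((S.erase 0).card : ℝ) = (S.card : ℝ) - 1 := by
    rw [Finset.card_erase_of_mem h0, Nat.cast_sub (Finset.card_pos.2 ⟨0, h0⟩), Nat.cast_one]
  have h7 : ∑ ρ ∈ Finset.univ.erase (0 : ZMod p), ((rr S ρ : ℝ) - 1) * (fun _ => (1 : ℝ)) ρ =
      ∑ ρ ∈ Finset.univ.erase (0 : ZMod p), ((rr S ρ : ℝ) - 1) :=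
    Finset.sum_congr rfl fun ρ _ => mul_one _
  rw [← h7, ← h5]
  rw [Finset.sum_const, Finset.sum_const, nsmul_eq_mul, nsmul_eq_mul, mul_one, h6]
  ring

end Pool.Agent.helper85.PG
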