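import Mathlib
import Pool.Agent.helper85.PG.Spec

set_option autoImplicit false

namespace Pool.Agent.helper85.PG

open Module

theorem PK (hV1 : V1_stmt) : PK_stmt := by
  classical
  intro E _ _ _ H _ G W l m hl hm hW
  by_contra hcon
  have bound : ∀ T : Finset (E × H), (∀ t ∈ T, t ∈ ball G l) →
      (∀ x ∈ T, ∀ y ∈ T, x ≠ y → m ≤ ‖x.1 - y.1‖) →
      (T.card : ℝ) ≤ (1 + 2 * l / m) ^ finrank ℝ W := by
    intro T hT hsep
    have hmemW : ∀ t : T, t.1.1 ∈ W := fun t => hW _ (hT _ t.2)
    have hφ : Function.Injective (fun t : T => (⟨t.1.1, hmemW t⟩ : W)) := by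
      intro a b hab
      by_contra hne
      have h1 := hsep a.1 a.2 b.1 b.2 (fun h => hne (Subtype.ext h))
      have h2 : a.1.1 = b.1.1 := congrArg Subtype.val hab
      rw [h2, sub_self, norm_zero] at h1
      linarith
    have h := hV1 W (Finset.univ.image (fun t : T => (⟨t.1.1, hmemW t⟩ : W))) m l hm hl (by
      intro x hx
      obtain ⟨t, -, rfl⟩ := Finset.mem_image.mp hx
      exact (hT _ t.2).2) (by
      intro x hx y hy hxy
      obtain ⟨t, -, rfl⟩ := Finset.mem_image.mp hx
      obtain ⟨t', -, rfl⟩ := Finset.mem_image.mp hy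
      exact hsep t.1 t.2 t'.1 t'.2 (fun h => hxy (by rw [Subtype.ext h])))
    rw [Finset.card_image_of_injective _ hφ, Finset.card_univ, Fintype.card_coe] at h
    exact h
  have main : ∀ k : ℕ, ∃ T : Finset (E × H), (∀ t ∈ T, t ∈ ball G l) ∧
      (∀ x ∈ T, ∀ y ∈ T, x ≠ y → m ≤ ‖x.1 - y.1‖) ∧ T.card = k := by
    intro k
    induction k with
    | zero =>
      exact ⟨∅, by simp, by simp, rfl⟩
    | succ k ih =>
      obtain ⟨T, hT, hsep, hcard⟩ := ih
      have hex : ∃ z ∈ ball G l, ∀ t ∈ T, z - t ∉ ball G m := by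
        by_contra hno
        apply hcon
        refine ⟨T, hT, bound T hT hsep, ?_⟩
        intro z hz
        by_contra hz2
        apply hno
        refine ⟨z, hz, fun t ht hzt => hz2 ⟨t, ht, hzt⟩⟩
      obtain ⟨z, hz, hzT⟩ := hex
      have hfar : ∀ t ∈ T, m ≤ ‖z.1 - t.1‖ := by
        intro t ht
        by_contra hlt
        rw [not_le] at hlt
        apply hzT t ht
        refine ⟨G.sub_mem hz.1 (hT t ht).1, ?_⟩
        rw [Prod.fst_sub]
        exact hlt.le
      have hznot : z ∉ T := by
        intro hzin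
        have h1 := hfar z hzin
        rw [sub_self, norm_zero] at h1
        linarith
      refine ⟨insert z T, ?_, ?_, ?_⟩
      · intro t ht
        rcases Finset.mem_insert.mp ht with rfl | ht
        · exact hz
        · exact hT t ht
      · intro x hx y hy hxy
        rcases Finset.mem_insert.mp hx with hx1 | hx1
        · rcases Finset.mem_insert.mp hy with hy1 | hy1
          · exact absurd (hx1.trans hy1.symm) hxy
          · rw [hx1]
            exact hfar y hy1
        · rcases Finset.mem_insert.mp hy with hy1 | hy1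
          · rw [hy1, norm_sub_rev]
            exact hfar x hx1
          · exact hsep x hx1 y hy1 hxy
      · rw [Finset.card_insert_of_notMem hznot, hcard]
  obtain ⟨k, hk⟩ := exists_nat_gt ((1 + 2 * l / m) ^ finrank ℝ W)
  obtain ⟨T, hT, hsep, hcard⟩ := main k
  have h := bound T hT hsep
  rw [hcard] at h
  linarith

end Pool.Agent.helper85.PG
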